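import Mathlib

set_option autoImplicit false

namespace Pool.Agent.H.MP_9cf723_co

open Finset Module Submodule

section alg
variable {A : Type} [CommRing A] [Algebra ℝ A]

lemma polar (S : Submodule ℝ A) (m l : A) (n : ℕ) (h : ∀ t : ℝ, (t • l + m) ^ (n + 1) ∈ S) :
    m ^ n * l ∈ S := by
  rw [← Subspace.forall_mem_dualAnnihilator_apply_eq_zero_iff]
  intro φ hφ
  rw [mem_dualAnnihilator] at hφ
  let q : Polynomial ℝ := ∑ k ∈ range (n + 2),
    Polynomial.monomial k (((n + 1).choose k : ℝ) * φ (l ^ k * m ^ (n + 1 - k)))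
  have hq : q = 0 := by
    apply Polynomial.funext
    intro t
    have := hφ _ (h t)
    rw [add_pow, map_sum] at this
    simp only [q, Polynomial.eval_finsetSum, Polynomial.eval_monomial, Polynomial.eval_zero]
    rw [← this]
    refine sum_congr rfl fun k _ => ?_
    rw [smul_pow, mul_comm _ ((n + 1).choose k : A), ← nsmul_eq_mul ((n + 1).choose k) (_ : A),
      smul_mul_assoc, map_nsmul, map_smul]
    simp only [nsmul_eq_mul, smul_eq_mul]; ring
  have h1 := congrArg (fun r => Polynomial.coeff r 1) hq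
  simp only [q, Polynomial.finsetSum_coeff, Polynomial.coeff_monomial, sum_ite_eq', mem_range,
    Polynomial.coeff_zero] at h1
  rw [if_pos (by omega)] at h1
  simp only [Nat.choose_one_right, pow_one, Nat.add_sub_cancel, mul_eq_zero] at h1
  rw [mul_comm]
  exact h1.resolve_left (by positivity)

lemma pow_eq (U : Submodule ℝ A) (n : ℕ) : U ^ n = span ℝ ((· ^ n) '' (U : Set A)) := by
  apply le_antisymm
  · induction n with
    | zero =>
      rw [pow_zero, Submodule.one_le]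
      exact subset_span ⟨0, U.zero_mem, by simp⟩
    | succ n ih =>
      rw [pow_succ]
      refine (mul_le_mul_left ih U).trans ?_
      rw [← span_eq U, span_mul_span, span_eq, span_le]
      rintro _ ⟨_, ⟨m, hm, rfl⟩, l, hl, rfl⟩
      exact polar _ m l n fun t => subset_span ⟨_, U.add_mem (U.smul_mem t hl) hm, rfl⟩
  · rw [span_le]
    rintro _ ⟨m, hm, rfl⟩
    exact pow_mem_pow U hm n

variable (E : Derivation ℝ A A)

/-- the twisted derivative -/
noncomputable def D (n : ℕ) : A →ₗ[ℝ] A := (n : ℝ) • LinearMap.id + E.toLinearMap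

lemma D_apply (n : ℕ) (f : A) : D E n f = (n : ℝ) • f + E f := rfl

variable {E} {φ : A →ₗ[ℝ] ℝ} {U : Submodule ℝ A}

lemma D_pow {l : A} {c : ℝ} (h : E l = c • (1 : A) - l) (n : ℕ) :
    D E n (l ^ n) = ((n : ℝ) * c) • l ^ (n - 1) := by
  rw [D_apply, Derivation.leibniz_pow, h]
  cases n with
  | zero => simp
  | succ n =>
    simp only [Nat.add_sub_cancel, ← Nat.cast_smul_eq_nsmul ℝ, smul_eq_mul, mul_sub, mul_smul_comm,
      mul_one, smul_sub, mul_smul, pow_succ]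
    abel

lemma D_mul {l : A} (h : E l = 1 - l) (n : ℕ) (g : A) :
    D E (n + 1) (l * g) = g + l * D E n g := by
  simp only [D_apply, Derivation.leibniz, h, smul_eq_mul, Algebra.smul_def]
  push_cast
  ring

lemma D_mem (hE : ∀ l ∈ U, E l = φ l • (1 : A) - l) (n : ℕ) {f : A} (hf : f ∈ U ^ n) :
    D E n f ∈ U ^ (n - 1) := by
  have : U ^ n ≤ (U ^ (n - 1)).comap (D E n) := by
    rw [pow_eq U n, span_le]
    rintro _ ⟨m, hm, rfl⟩
    simp only [SetLike.mem_coe, mem_comap, D_pow (hE m hm)]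
    exact smul_mem _ _ (pow_mem_pow U hm _)
  exact this hf

lemma D_zero (hE : ∀ l ∈ U, E l = φ l • (1 : A) - l) (n : ℕ) {f : A}
    (hf : f ∈ (U ⊓ LinearMap.ker φ) ^ n) : D E n f = 0 := by
  have : (U ⊓ LinearMap.ker φ) ^ n ≤ LinearMap.ker (D E n) := by
    rw [pow_eq, span_le]
    rintro _ ⟨m, hm, rfl⟩
    have h2 : φ m = 0 := hm.2
    simp [D_pow (hE m hm.1), h2]
  exact this hf

lemma D_surj (hE : ∀ l ∈ U, E l = φ l • (1 : A) - l) {l₀ : A} (h₀ : l₀ ∈ U) (h₁ : φ l₀ = 1)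
    (n : ℕ) {g : A} (hg : g ∈ U ^ n) : ∃ f ∈ U ^ (n + 1), D E (n + 1) f = g := by
  have : U ^ n ≤ (U ^ (n + 1)).map (D E (n + 1)) := by
    rw [pow_eq U n, span_le]
    rintro _ ⟨m, hm, rfl⟩
    by_cases h : φ m = 0
    · refine ⟨l₀ * m ^ n, ?_, ?_⟩
      · rw [pow_succ']; exact mul_mem_mul h₀ (pow_mem_pow U hm n)
      · rw [D_mul (by rw [hE _ h₀, h₁, one_smul]), D_pow (hE m hm), h]; simp
    · refine ⟨(((n + 1 : ℕ) : ℝ) * φ m)⁻¹ • m ^ (n + 1), smul_mem _ _ (pow_mem_pow U hm _), ?_⟩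
      rw [map_smul, D_pow (hE m hm), smul_smul, inv_mul_cancel₀ (by positivity)]
      simp
  exact this hg

lemma inj (hE : ∀ l ∈ U, E l = φ l • (1 : A) - l) {l₀ : A} (h₀ : E l₀ = 1 - l₀) (n : ℕ) :
    ∀ (a : ℝ) (g : A), 0 < a → g ∈ U ^ n → a • g + l₀ * D E n g = 0 → g = 0 := by
  induction n with
  | zero =>
    intro a g ha hg h
    rw [pow_zero, Submodule.mem_one] at hg
    obtain ⟨y, rfl⟩ := hg
    have h2 : D E 0 (algebraMap ℝ A y) = 0 := by simp [D_apply]
    rw [h2, mul_zero, add_zero] at h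
    have := congrArg (a⁻¹ • ·) h
    simpa [smul_smul, inv_mul_cancel₀ ha.ne'] using this
  | succ n ih =>
    intro a g ha hg h
    have h1 := congrArg (D E (n + 1)) h
    rw [map_add, map_smul, D_mul h₀, map_zero, ← add_assoc] at h1
    have h2 := ih (a + 1) _ (by positivity) (D_mem hE _ hg) (by rw [add_smul, one_smul]; exact h1)
    rw [h2, mul_zero, add_zero] at h
    have := congrArg (a⁻¹ • ·) h
    simpa [smul_smul, inv_mul_cancel₀ ha.ne'] using this

lemma D_ker (hE : ∀ l ∈ U, E l = φ l • (1 : A) - l) {l₀ : A} (h₀ : l₀ ∈ U) (h₁ : φ l₀ = 1)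
    (n : ℕ) {f : A} (hf : f ∈ U ^ (n + 1)) (h : D E (n + 1) f = 0) :
    f ∈ (U ⊓ LinearMap.ker φ) ^ (n + 1) := by
  have e₀ : E l₀ = 1 - l₀ := by rw [hE _ h₀, h₁, one_smul]
  have : U ^ (n + 1) ≤ (U ⊓ LinearMap.ker φ) ^ (n + 1) ⊔ (U ^ n).map (LinearMap.mulLeft ℝ l₀) := by
    rw [pow_eq U (n + 1), span_le]
    rintro _ ⟨m, hm, rfl⟩
    have hm' : m - φ m • l₀ ∈ U := U.sub_mem hm (U.smul_mem _ h₀)
    have hk : m - φ m • l₀ ∈ U ⊓ LinearMap.ker φ := ⟨hm', by simp [h₁]⟩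
    refine Submodule.mem_sup.2 ⟨(m - φ m • l₀) ^ (n + 1), Submodule.pow_mem_pow _ hk _,
      _, ⟨φ m • ∑ i ∈ range (n + 1), m ^ i * (m - φ m • l₀) ^ (n + 1 - 1 - i), ?_, rfl⟩, ?_⟩
    · refine smul_mem _ _ (sum_mem fun i hi => ?_)
      rw [mem_range] at hi
      have : U ^ n = U ^ i * U ^ (n + 1 - 1 - i) := by rw [← pow_add]; congr 1; omega
      rw [this]
      exact mul_mem_mul (pow_mem_pow U hm _) (pow_mem_pow U hm' _)
    · have := Commute.geom_sum₂_mul (Commute.all m (m - φ m • l₀)) (n + 1)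
      simp only [LinearMap.mulLeft_apply, mul_smul_comm]
      rw [← smul_mul_assoc, mul_comm, sub_sub_cancel] at *
      rw [mul_comm, this]; ring
  obtain ⟨a, ha, _, ⟨g, hg, rfl⟩, rfl⟩ := Submodule.mem_sup.1 (this hf)
  rw [map_add, D_zero hE _ ha, zero_add, LinearMap.mulLeft_apply, D_mul e₀] at h
  rw [inj hE e₀ n 1 g one_pos hg (by rw [one_smul]; exact h)]
  simpa using ha

end alg

lemma rank_map {M : Type} [AddCommGroup M] [Module ℝ M] (f : M →ₗ[ℝ] M) (S : Submodule ℝ M)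
    [Module.Finite ℝ S] :
    finrank ℝ S = finrank ℝ (S.map f) + finrank ℝ ↥(S ⊓ LinearMap.ker f) := by
  rw [← (f.domRestrict S).finrank_range_add_finrank_ker, LinearMap.range_domRestrict,
    LinearMap.ker_domRestrict]
  congr 1
  have : (LinearMap.ker f).comap S.subtype = (S ⊓ LinearMap.ker f).comap S.subtype := by
    ext; simp
  rw [this]
  exact (comapSubtypeEquivOfLe inf_le_left).finrank_eq

lemma rank_quot {M : Type} [AddCommGroup M] [Module ℝ M] (Z B : Submodule ℝ M) (h : B ≤ Z)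
    [Module.Finite ℝ Z] :
    finrank ℝ (↥Z ⧸ B.submoduleOf Z) + finrank ℝ B = finrank ℝ Z := by
  rw [← (B.submoduleOf Z).finrank_quotient_add_finrank, (submoduleOfEquivOfLe h).finrank_eq]

end Pool.Agent.H.MP_9cf723_co
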